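import Pool.Agent.KS6_62.Geo.Final
import Pool.Agent.KS6_62.Geo.Upper

set_option autoImplicit false
set_option linter.unusedSimpArgs false
set_option linter.unusedVariables false

/-!
MP_be4ebb_co.  The number `g n` of isomorphism classes of biconnected geodetic graphs with `n`
vertices satisfies `n ^ (n / 50) ≤ g n ≤ n ^ (4 * n ^ (3 / 2))` for every sufficiently large `n`;
the lower bound already holds for the graphs of diameter at most five.

Lower bound: for a linear space, the graph whose vertices are the points and the flags, a point being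
joined to its flags and two flags being joined if they have the same line, is geodetic and
biconnected, and it has `v ^ 2 - 3 a - 8 c` vertices if the space has `v` points, `a` lines with three
points, `c` lines with four points and all other lines have two points.  Taking the three-point lines
from partial Latin arrays gives enough pairwise non-isomorphic graphs with any large number of
vertices.

Upper bound: a geodetic graph is determined by its maximal cliques, and since two non-adjacent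
vertices have at most one common neighbour, the sizes of the maximal cliques add up to at most
`n ^ (3 / 2) + n + 1`.
-/

namespace Pool.Agent.Results.MP_be4ebb_co.SuperexponentialGrowth

open Pool.Agent.KS6_62.Geo

theorem upper_real (n : ℕ) (hn : 64 ≤ n) : (g n : ℝ) ≤ (n : ℝ) ^ (4 * (n : ℝ) ^ (3 / 2 : ℝ)) := by
  have hn' : (64 : ℝ) ≤ n := by exact_mod_cast hn
  have hpos : (0 : ℝ) < n := by linarith
  set y := (n : ℝ) ^ (3 / 2 : ℝ) with hy
  have hy0 : 0 < y := Real.rpow_pos_of_pos hpos _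
  have hyy : y * y = (n : ℝ) ^ 3 := by
    rw [hy, ← Real.rpow_add hpos]
    norm_num
  have hy8 : 8 * (n : ℝ) ≤ y := by
    by_contra hc
    push Not at hc
    have h1 : y * y < (8 * (n : ℝ)) * (8 * (n : ℝ)) :=
      mul_lt_mul'' hc hc hy0.le hy0.le
    have h2 : (64 : ℝ) * (n : ℝ) ^ 2 ≤ n * (n : ℝ) ^ 2 :=
      mul_le_mul_of_nonneg_right hn' (by positivity)
    nlinarith
  set s := ⌈y⌉₊ with hs
  have hs1 : y ≤ s := Nat.le_ceil y
  have hs2 : (s : ℝ) < y + 1 := Nat.ceil_lt_add_one hy0.le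
  have hss : n * n * n ≤ s * s := by
    have : ((n * n * n : ℕ) : ℝ) ≤ ((s * s : ℕ) : ℝ) := by
      push_cast
      have h1 : y * y ≤ (s : ℝ) * s := mul_le_mul hs1 hs1 hy0.le (by positivity)
      nlinarith
    exact_mod_cast this
  have h1 := g_upper n s hss
  have h2 : (g n : ℝ) ≤ ((n : ℝ) * (n * n) + 1) ^ (s + n) := by exact_mod_cast h1
  have h3 : (n : ℝ) * (n * n) + 1 ≤ (n : ℝ) ^ (7 / 2 : ℝ) := by
    have e1 : (n : ℝ) ^ (7 / 2 : ℝ) = (n : ℝ) ^ 2 * y := by
      rw [hy, show (7 / 2 : ℝ) = 2 + 3 / 2 by norm_num, Real.rpow_add hpos]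
      norm_num
    rw [e1]
    have e2 : (n : ℝ) ^ 2 * (8 * n) ≤ (n : ℝ) ^ 2 * y :=
      mul_le_mul_of_nonneg_left hy8 (by positivity)
    have e3 : (1 : ℝ) ≤ (n : ℝ) ^ 3 := one_le_pow₀ (by linarith)
    nlinarith
  have h4 : ((n : ℝ) * (n * n) + 1) ^ (s + n) ≤ ((n : ℝ) ^ (7 / 2 : ℝ)) ^ (s + n) :=
    pow_le_pow_left₀ (by positivity) h3 _
  have h5 : ((n : ℝ) ^ (7 / 2 : ℝ)) ^ (s + n) = (n : ℝ) ^ ((7 / 2 : ℝ) * ((s + n : ℕ) : ℝ)) := by
    rw [Real.rpow_mul hpos.le, Real.rpow_natCast]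
  have h6 : (n : ℝ) ^ ((7 / 2 : ℝ) * ((s + n : ℕ) : ℝ)) ≤ (n : ℝ) ^ (4 * y) := by
    apply Real.rpow_le_rpow_of_exponent_le (by linarith)
    push_cast
    linarith
  linarith

theorem lower_real : ∃ n0 : ℕ, ∀ n ≥ n0, (n : ℝ) ^ ((n : ℝ) / 50) ≤ (g5 n : ℝ) := by
  obtain ⟨n0, h0⟩ := main_lower
  refine ⟨n0 + 1, fun n hn => ?_⟩
  have h1 : n ^ (n / 50 + 1) ≤ g5 n := h0 n (by omega)
  have h2 : ((n ^ (n / 50 + 1) : ℕ) : ℝ) ≤ (g5 n : ℝ) := by exact_mod_cast h1
  refine le_trans ?_ h2
  rw [Nat.cast_pow, ← Real.rpow_natCast]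
  have hn1 : (1 : ℝ) ≤ n := by exact_mod_cast (by omega : 1 ≤ n)
  apply Real.rpow_le_rpow_of_exponent_le hn1
  have h3 : n ≤ 50 * (n / 50 + 1) := by omega
  have h4 : (n : ℝ) ≤ 50 * ((n / 50 + 1 : ℕ) : ℝ) := by exact_mod_cast h3
  linarith

/-- For all sufficiently large `n`, the number `g n` of isomorphism classes of biconnected geodetic
graphs with `n` vertices lies between `n ^ (n / 50)` and `n ^ (4 n ^ (3/2))`, and the lower bound
holds already for the number `g5 n` of those in which all distances are at most five. -/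
theorem result : ∃ n0 : ℕ, ∀ n ≥ n0,
    (n : ℝ) ^ ((n : ℝ) / 50) ≤ (g5 n : ℝ) ∧ g5 n ≤ g n ∧
      (g n : ℝ) ≤ (n : ℝ) ^ (4 * (n : ℝ) ^ (3 / 2 : ℝ)) := by
  obtain ⟨n0, h0⟩ := lower_real
  exact ⟨n0 + 64, fun n hn => ⟨h0 n (by omega), g5_le_g n, upper_real n (by omega)⟩⟩

end Pool.Agent.Results.MP_be4ebb_co.SuperexponentialGrowth
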